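import Pool.Agent.Lib.MP_361a6f_ag.AV48.Ext
import Pool.Agent.Lib.MP_361a6f_ag.PP.WEY
import Pool.Agent.Lib.MP_361a6f_ag.PP.StaB

/-!
# The canonical anticommutation relations on an exterior algebra with a Lefschetz operator
-/

universe w

set_option autoImplicit false
set_option linter.unusedSectionVars false

namespace Pool.Agent.Lib.MP_361a6f_ag.AV48

open Pool.Agent.Lib.MP_361a6f_ag.PP Module

/-- in a finite-dimensional representation of `sl_2` a vector killed by `L` has weight `≥ 0` -/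
theorem eq_zero_of_neg {B : Type*} [Ring B] [Algebra ℂ B] [Module.Finite ℂ B] {L Λ H R : B}
    (S : Sl2 ℂ L Λ H) (h1 : L * R - R * L = 0) {m : ℕ}
    (h2 : H * R - R * H = -((((m + 1 : ℕ) : ℂ)) • R)) : R = 0 := by
  by_cases hH : H = 0
  · rw [hH, zero_mul, mul_zero, sub_zero, eq_comm, neg_eq_zero] at h2
    exact (smul_eq_zero.1 h2).resolve_left (by exact_mod_cast Nat.succ_ne_zero m)
  · by_contra hR
    let _ : LieRing B := LieRing.ofAssociativeRing
    let _ : LieAlgebra ℂ B := LieAlgebra.ofAssociativeAlgebra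
    have t : IsSl2Triple H L Λ := by
      refine ⟨hH, ?_, ?_, ?_⟩
      · rw [Ring.lie_def]
        exact S.comm
      · rw [Ring.lie_def, S.HL, two_smul, two_smul]
      · rw [Ring.lie_def, S.HΛ, two_smul, two_smul]
    have P : t.HasPrimitiveVectorWith R (-(((m + 1 : ℕ) : ℂ))) := by
      refine ⟨hR, ?_, ?_⟩
      · rw [Ring.lie_def, h2, neg_smul]
      · rw [Ring.lie_def]
        exact h1
    obtain ⟨r, hr⟩ := P.exists_nat
    have h3 : (((m + 1 + r : ℕ)) : ℂ) = 0 := by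
      push_cast at hr ⊢
      rw [← hr]
      ring
    have h4 : m + 1 + r = 0 := by exact_mod_cast h3
    omega

section ring

variable {B : Type*} [Ring B] (L Λ M H i : B)

theorem ring1 (h : L * M = M * L) : L * (Λ * M - M * Λ) - (Λ * M - M * Λ) * L
    = (L * Λ - Λ * L) * M - M * (L * Λ - Λ * L) := by
  have h1 : L * M * Λ = M * L * Λ := by rw [h]
  have h2 : Λ * M * L = Λ * L * M := by rw [mul_assoc, ← h, mul_assoc]
  simp only [mul_sub, sub_mul, ← mul_assoc]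
  rw [h1, h2]
  abel

theorem ring2 : H * (Λ * M - M * Λ) - (Λ * M - M * Λ) * H
    = ((H * Λ - Λ * H) * M - M * (H * Λ - Λ * H))
      + (Λ * (H * M - M * H) - (H * M - M * H) * Λ) := by
  simp only [mul_sub, sub_mul, ← mul_assoc]
  abel

theorem ring3 (D : B) : L * (i - D) - (i - D) * L = (L * i - i * L) - (L * D - D * L) := by
  simp only [mul_sub, sub_mul]
  abel

theorem ring4 : -Λ * M - M * -Λ = -(Λ * M - M * Λ) := by
  rw [neg_mul, mul_neg]
  abel

theorem ring5 [Algebra ℂ B] : -((2 : ℂ) • Λ) * M - M * -((2 : ℂ) • Λ) + (Λ * M - M * Λ)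
    = -(Λ * M - M * Λ) := by
  rw [neg_mul, mul_neg, smul_mul_assoc, mul_smul_comm, two_smul, two_smul]
  abel

theorem ring6 (h : Λ * i - i * Λ = 0) : -Λ * -i - -i * -Λ = 0 := by
  rw [neg_mul_neg, neg_mul_neg, h]

theorem ring7 (h : Λ * i - i * Λ = 0) : -Λ * i - i * -Λ = 0 := by
  rw [neg_mul, mul_neg, sub_neg_eq_add, neg_add_eq_sub, ← neg_sub, h, neg_zero]

theorem ring8 [Algebra ℂ B] : -((2 : ℂ) • Λ) * i - i * -((2 : ℂ) • Λ) + (Λ * -i - -i * Λ)
    = -((((2 + 1 : ℕ) : ℂ)) • (Λ * i - i * Λ)) := by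
  rw [neg_mul, mul_neg, mul_neg, neg_mul, smul_mul_assoc, mul_smul_comm]
  push_cast
  module

end ring

variable {A : Type w} [Ring A] [Algebra ℂ A] {gr : ℕ → Submodule ℂ A} {g : ℕ} {ξ : A}
  {Lam : Module.End ℂ A}

/-- multiplication by `u` -/
noncomputable abbrev mu (u : A) : Module.End ℂ A := LinearMap.mulLeft ℂ u

/-- the commutator of `Λ` with the multiplication by `u` -/
noncomputable def io (Lam : Module.End ℂ A) (u : A) : Module.End ℂ A :=
  Lam * mu u - mu u * Lam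

theorem io_apply (Lam : Module.End ℂ A) (u x : A) : io Lam u x = Lam (u * x) - u * Lam x := rfl

namespace ExtAlg

section basic

variable {n : ℕ} (h : ExtAlg gr n)
include h

theorem D_gr (d : Module.Dual ℂ (gr 1)) (i : ℕ) (x : A) (hx : x ∈ gr i) :
    (i = 0 → h.D d x = 0) ∧ ∀ j, i = j + 1 → h.D d x ∈ gr j := by
  refine h.deg_ind (P := fun i x => (i = 0 → h.D d x = 0) ∧ ∀ j, i = j + 1 → h.D d x ∈ gr j)
    ?_ ?_ ?_ ?_ i x hx
  · intro i
    rw [map_zero]
    exact ⟨fun _ => rfl, fun j _ => zero_mem _⟩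
  · intro i x y _ _ hx hy
    rw [map_add]
    exact ⟨fun h0 => by rw [hx.1 h0, hy.1 h0, add_zero],
      fun j hj => add_mem (hx.2 j hj) (hy.2 j hj)⟩
  · intro c
    rw [map_smul, h.D_one, smul_zero]
    exact ⟨fun _ => rfl, fun j _ => zero_mem _⟩
  · intro i v hv x hx hP
    refine ⟨fun h0 => absurd h0 (Nat.succ_ne_zero i), fun j hj => ?_⟩
    obtain rfl : i = j := by omega
    have h1 := h.D_mul d ⟨v, hv⟩ x
    have h2 : h.D d (v * x) = d ⟨v, hv⟩ • x - v * h.D d x := h1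
    rw [h2]
    refine sub_mem (Submodule.smul_mem _ _ hx) ?_
    rcases Nat.eq_zero_or_pos i with hi | hi
    · rw [hP.1 hi, mul_zero]
      exact zero_mem _
    · obtain ⟨j, rfl⟩ : ∃ j, i = j + 1 := ⟨i - 1, by omega⟩
      have := h.mul hv (hP.2 j rfl)
      rwa [add_comm] at this

/-- the Leibniz rule -/
theorem D_leib (d : Module.Dual ℂ (gr 1)) (i : ℕ) (a : A) (ha : a ∈ gr i) (x : A) :
    h.D d (a * x) = h.D d a * x + (-1 : ℂ) ^ i • (a * h.D d x) := by
  refine h.deg_ind (P := fun i a => ∀ x, h.D d (a * x)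
    = h.D d a * x + (-1 : ℂ) ^ i • (a * h.D d x)) ?_ ?_ ?_ ?_ i a ha x
  · intro i x
    rw [zero_mul, map_zero, zero_mul, zero_mul, smul_zero, add_zero]
  · intro i a b _ _ ha hb x
    rw [add_mul, map_add, ha, hb, map_add, add_mul, add_mul, smul_add]
    abel
  · intro c x
    rw [smul_mul_assoc, one_mul, map_smul, map_smul, h.D_one, smul_zero, zero_mul, zero_add,
      pow_zero, one_smul, smul_mul_assoc, one_mul]
  · intro i v hv a ha hP x
    have h1 : ∀ y, h.D d (v * y) = d ⟨v, hv⟩ • y - v * h.D d y := h.D_mul d ⟨v, hv⟩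
    rw [mul_assoc, h1, h1, hP, pow_succ, mul_add, sub_mul, smul_mul_assoc, mul_smul_comm,
      mul_assoc, mul_assoc, mul_smul, neg_one_smul ℂ, smul_neg]
    abel

end basic

variable (h : ExtAlg gr (2 * g)) (hξ : ξ ∈ gr 2) (S : Slm gr g (LinearMap.mulLeft ℂ ξ) Lam)

include h hξ

theorem D_ξ_mul (d : Module.Dual ℂ (gr 1)) (x : A) :
    h.D d (ξ * x) = h.D d ξ * x + ξ * h.D d x := by
  have := h.D_leib d 2 ξ hξ x
  norm_num at this
  exact this

theorem D_ξ_pow (d : Module.Dual ℂ (gr 1)) (h0 : h.D d ξ = 0) (r : ℕ) : h.D d (ξ ^ r) = 0 := by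
  induction r with
  | zero => rw [pow_zero, h.D_one]
  | succ r ih => rw [pow_succ', h.D_ξ_mul hξ, h0, ih, zero_mul, mul_zero, add_zero]

/-- the map `d ↦ -D_d ξ` from the dual of `gr 1` to `gr 1` -/
noncomputable def kap : Module.Dual ℂ (gr 1) →ₗ[ℂ] gr 1 where
  toFun d := -⟨h.D d ξ, (h.D_gr d 2 ξ hξ).2 1 rfl⟩
  map_add' d d' := by
    refine Subtype.ext ?_
    show -(h.D (d + d') ξ) = -(h.D d ξ) + -(h.D d' ξ)
    rw [h.D_add, neg_add]
  map_smul' c d := by
    refine Subtype.ext ?_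
    show -(h.D (c • d) ξ) = c • -(h.D d ξ)
    rw [h.D_smul, smul_neg]

theorem kap_apply (d : Module.Dual ℂ (gr 1)) : ((h.kap hξ d : gr 1) : A) = -h.D d ξ := rfl

include S in
theorem kap_inj (hg : ξ ^ g ≠ 0) : Function.Injective (h.kap hξ) := by
  rw [injective_iff_map_eq_zero]
  intro d hd
  have h0 : h.D d ξ = 0 := by
    have := h.kap_apply hξ d
    rw [hd] at this
    exact neg_eq_zero.1 this.symm
  by_contra hne
  obtain ⟨v, hv⟩ : ∃ v, d v ≠ 0 := by
    by_contra! hcon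
    exact hne (LinearMap.ext hcon)
  have h1 : ∀ r, ξ ^ r ∈ gr (2 * r) := by
    intro r
    induction r with
    | zero => rw [pow_zero]; exact h.one
    | succ r ih =>
      rw [pow_succ]
      exact h.mul ih hξ
  have h2 : (v : A) * ξ ^ g = 0 := S.top _ _ (h.mul v.2 (h1 g)) (by omega)
  have h3 := h.D_mul d v (ξ ^ g)
  rw [h2, map_zero, h.D_ξ_pow hξ d h0, mul_zero, sub_zero] at h3
  exact hg ((smul_eq_zero.1 h3.symm).resolve_left hv)

include S in
theorem exists_dual (hg : ξ ^ g ≠ 0) (u : gr 1) :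
    ∃ d : Module.Dual ℂ (gr 1), h.D d ξ = -(u : A) := by
  have := h.fin
  have h1 : Function.Surjective (h.kap hξ) :=
    (LinearMap.injective_iff_surjective_of_finrank_eq_finrank
      Subspace.dual_finrank_eq).1 (h.kap_inj hξ S hg)
  obtain ⟨d, hd⟩ := h1 u
  refine ⟨d, ?_⟩
  have := h.kap_apply hξ d
  rw [hd] at this
  rw [this, neg_neg]

theorem mu_comm {u : A} (hu : u ∈ gr 1) : mu ξ * mu u = mu u * mu ξ := by
  refine LinearMap.ext fun x => ?_
  show ξ * (u * x) = u * (ξ * x)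
  rw [← mul_assoc, ← mul_assoc, h.comm hξ hu]
  norm_num

omit hξ

theorem H_mu (S : Slm gr g (LinearMap.mulLeft ℂ ξ) Lam) {u : A} (hu : u ∈ gr 1) :
    PP.Slm.weyH S.internal g * mu u - mu u * PP.Slm.weyH S.internal g = mu u := by
  refine PP.Slm.wey_hom_ext S.internal fun i x hx => ?_
  have hH : ∀ i x, x ∈ gr i → PP.Slm.weyH S.internal g x = ((i : ℂ) - g) • x :=
    fun i x hx => gop_apply S.internal _ hx
  rw [LinearMap.sub_apply, Module.End.mul_apply, Module.End.mul_apply, hH i x hx]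
  show PP.Slm.weyH S.internal g (u * x) - u * _ = u * x
  rw [hH _ _ (h.mul hu hx), mul_smul_comm, ← sub_smul]
  have : ((1 + i : ℕ) : ℂ) - g - ((i : ℂ) - g) = 1 := by
    push_cast
    ring
  rw [this, one_smul]

include hξ

/-- `[L, ι_u] = u` -/
theorem L_io (S : Slm gr g (LinearMap.mulLeft ℂ ξ) Lam) {u : A} (hu : u ∈ gr 1) :
    mu ξ * io Lam u - io Lam u * mu ξ = mu u := by
  have h1 := h.mu_comm hξ hu
  have h2 := h.H_mu S hu
  have h3 : mu ξ * Lam - Lam * mu ξ = PP.Slm.weyH S.internal g := S.wey_sl2.comm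
  rw [← h3] at h2
  rw [io, ring1 _ _ _ h1, h2]

omit hξ

/-- `[H, ι_u] = -ι_u` -/
theorem H_io (S : Slm gr g (LinearMap.mulLeft ℂ ξ) Lam) {u : A} (hu : u ∈ gr 1) :
    PP.Slm.weyH S.internal g * io Lam u - io Lam u * PP.Slm.weyH S.internal g = -io Lam u := by
  have h2 := h.H_mu S hu
  have h3 := S.wey_sl2.HΛ
  obtain ⟨H, hH⟩ : ∃ H, H = PP.Slm.weyH S.internal g := ⟨_, rfl⟩
  rw [← hH] at h2 h3 ⊢
  rw [io, ring2, h3, h2]
  exact ring5 _ _

include hξ

theorem io_eq_D [Module.Finite ℂ A] (S : Slm gr g (LinearMap.mulLeft ℂ ξ) Lam) (u : gr 1)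
    {d : Module.Dual ℂ (gr 1)} (hd : h.D d ξ = -(u : A)) : io Lam (u : A) = h.D d := by
  rw [← sub_eq_zero]
  have h1 : mu ξ * h.D d - h.D d * mu ξ = mu (u : A) := by
    refine LinearMap.ext fun x => ?_
    show ξ * h.D d x - h.D d (ξ * x) = u * x
    rw [h.D_ξ_mul hξ, hd, neg_mul]
    abel
  have h2 : PP.Slm.weyH S.internal g * h.D d - h.D d * PP.Slm.weyH S.internal g = -h.D d := by
    have hH : ∀ i x, x ∈ gr i → PP.Slm.weyH S.internal g x = ((i : ℂ) - g) • x :=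
      fun i x hx => gop_apply S.internal _ hx
    refine PP.Slm.wey_hom_ext S.internal fun i x hx => ?_
    rw [LinearMap.sub_apply, Module.End.mul_apply, Module.End.mul_apply, hH i x hx, map_smul,
      LinearMap.neg_apply]
    rcases Nat.eq_zero_or_pos i with hi | hi
    · rw [(h.D_gr d i x hx).1 hi]
      simp
    · obtain ⟨j, rfl⟩ : ∃ j, i = j + 1 := ⟨i - 1, by omega⟩
      rw [hH _ _ ((h.D_gr d _ x hx).2 j rfl), ← sub_smul, ← neg_one_smul ℂ]
      congr 1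
      push_cast
      ring
  refine eq_zero_of_neg S.wey_sl2 (m := 0) ?_ ?_
  · show mu ξ * (io Lam (u : A) - h.D d) - (io Lam (u : A) - h.D d) * mu ξ = 0
    have h3 := h.L_io hξ S u.2
    rw [ring3, h3, h1, sub_self]
  · have h3 := h.H_io S u.2
    rw [ring3, h3, h2]
    simp only [zero_add, Nat.cast_one, one_smul]
    abel

/-- `[Λ, ι_u] = 0` -/
theorem Λ_io [Module.Finite ℂ A] (S : Slm gr g (LinearMap.mulLeft ℂ ξ) Lam) {u : A}
    (hu : u ∈ gr 1) : Lam * io Lam u - io Lam u * Lam = 0 := by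
  have h1 := h.L_io hξ S hu
  have h2 := h.H_io S hu
  have h3 : mu ξ * Lam - Lam * mu ξ = PP.Slm.weyH S.internal g := S.wey_sl2.comm
  have h4 := S.wey_sl2.HΛ
  obtain ⟨H, hH⟩ : ∃ H, H = PP.Slm.weyH S.internal g := ⟨_, rfl⟩
  rw [← hH] at h2 h3 h4
  obtain ⟨i, hi⟩ : ∃ i, i = io Lam u := ⟨_, rfl⟩
  rw [← hi] at h1 h2 ⊢
  refine eq_zero_of_neg S.wey_sl2 (m := 2) ?_ ?_
  · show mu ξ * (Lam * i - i * Lam) - (Lam * i - i * Lam) * mu ξ = 0
    rw [ring2, h3, h1, h2, hi, io]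
    abel
  · rw [← hH]
    rw [ring2, h4, h2]
    exact ring8 _ _

/-- `w u = -ι_u w` -/
theorem w_mu [Module.Finite ℂ A] (S : Slm gr g (LinearMap.mulLeft ℂ ξ) Lam) {u : A}
    (hu : u ∈ gr 1) : wop (mu ξ) Lam * mu u = -io Lam u * wop (mu ξ) Lam := by
  have T := S.wey_sl2
  have h1 := h.L_io hξ S hu
  have h2 := h.Λ_io hξ S hu
  have h3 := h.mu_comm hξ hu
  have c1 : kexp ℂ (mu ξ) * mu u * kexp ℂ (-mu ξ) = mu u := by
    rw [kexp_conj ℂ T.nilL (c := 0) (d := 0) (by rw [h3, sub_self]) (by simp) (by simp)]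
    simp
  have c2 : kexp ℂ (-Lam) * mu u * kexp ℂ Lam = mu u - io Lam u := by
    have e1 : -Lam * mu u - mu u * -Lam = -io Lam u := by rw [io, ring4]
    have e2 : -Lam * -io Lam u - -io Lam u * -Lam = 0 := ring6 _ _ h2
    have := kexp_conj ℂ T.nilΛ.neg e1 e2 (by simp)
    rw [neg_neg] at this
    rw [this]
    simp [sub_eq_add_neg]
  have c3 : kexp ℂ (mu ξ) * io Lam u * kexp ℂ (-mu ξ) = io Lam u + mu u := by
    rw [kexp_conj ℂ T.nilL h1 (d := 0) (by rw [h3, sub_self]) (by simp)]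
    simp
  refine T.of_conj ?_
  rw [T.conj_w]
  show kexp ℂ (mu ξ) * (kexp ℂ (-Lam) * (kexp ℂ (mu ξ) * mu u * kexp ℂ (-mu ξ)) * kexp ℂ Lam)
    * kexp ℂ (-mu ξ) = -io Lam u
  rw [c1, c2, mul_sub, sub_mul, c1, c3]
  abel

/-- `u w = w ι_u` -/
theorem w_io [Module.Finite ℂ A] (S : Slm gr g (LinearMap.mulLeft ℂ ξ) Lam) {u : A}
    (hu : u ∈ gr 1) : wop (mu ξ) Lam * io Lam u = mu u * wop (mu ξ) Lam := by
  have T := S.wey_sl2
  have h1 := h.L_io hξ S hu
  have h2 := h.Λ_io hξ S hu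
  have h3 := h.mu_comm hξ hu
  have c1 : kexp ℂ (mu ξ) * mu u * kexp ℂ (-mu ξ) = mu u := by
    rw [kexp_conj ℂ T.nilL (c := 0) (d := 0) (by rw [h3, sub_self]) (by simp) (by simp)]
    simp
  have c2 : kexp ℂ (-Lam) * mu u * kexp ℂ Lam = mu u - io Lam u := by
    have e1 : -Lam * mu u - mu u * -Lam = -io Lam u := by rw [io, ring4]
    have e2 : -Lam * -io Lam u - -io Lam u * -Lam = 0 := ring6 _ _ h2
    have := kexp_conj ℂ T.nilΛ.neg e1 e2 (by simp)
    rw [neg_neg] at this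
    rw [this]
    simp [sub_eq_add_neg]
  have c4 : kexp ℂ (-Lam) * io Lam u * kexp ℂ Lam = io Lam u := by
    have e1 : -Lam * io Lam u - io Lam u * -Lam = 0 := ring7 _ _ h2
    have := kexp_conj ℂ T.nilΛ.neg e1 (d := 0) (by simp) (by simp)
    rw [neg_neg] at this
    rw [this]
    simp
  have c3 : kexp ℂ (mu ξ) * io Lam u * kexp ℂ (-mu ξ) = io Lam u + mu u := by
    rw [kexp_conj ℂ T.nilL h1 (d := 0) (by rw [h3, sub_self]) (by simp)]
    simp
  refine T.of_conj ?_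
  rw [T.conj_w]
  show kexp ℂ (mu ξ) * (kexp ℂ (-Lam) * (kexp ℂ (mu ξ) * io Lam u * kexp ℂ (-mu ξ))
    * kexp ℂ Lam) * kexp ℂ (-mu ξ) = mu u
  rw [c3, mul_add, add_mul, c2, c4, add_sub_cancel, c1]

end ExtAlg

end Pool.Agent.Lib.MP_361a6f_ag.AV48
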