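import Pool.Agent.Lib.MP_361a6f_ag.PP.Abs

/-!
# Graded algebras generated in degree one with the top degree `dim gr 1` are exterior algebras
-/

universe w

set_option autoImplicit false
set_option linter.unusedSectionVars false

namespace Pool.Agent.Lib.MP_361a6f_ag.AV48

open Pool.Agent.Lib.MP_361a6f_ag.PP Module

variable {A : Type w} [Ring A] [Algebra ℂ A]

/-- `A` is graded-commutative, generated by `gr 1`, and `gr n ≠ 0` for `n = dim gr 1`. -/
structure ExtAlg (gr : ℕ → Submodule ℂ A) (n : ℕ) : Prop where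
  internal : DirectSum.IsInternal gr
  one : (1 : A) ∈ gr 0
  mul : ∀ {i j : ℕ} {x y : A}, x ∈ gr i → y ∈ gr j → x * y ∈ gr (i + j)
  comm : ∀ {i j : ℕ} {x y : A}, x ∈ gr i → y ∈ gr j → x * y = (-1 : ℂ) ^ (i * j) • (y * x)
  gen : Algebra.adjoin ℂ (gr 1 : Set A) = ⊤
  fin : Module.Finite ℂ (gr 1)
  dim : Module.finrank ℂ (gr 1) = n
  top : gr n ≠ ⊥

section ext

variable {V : Type w} [AddCommGroup V] [Module ℂ V]

/-- contraction with a functional -/
noncomputable def con (d : Module.Dual ℂ V) : Module.End ℂ (ExteriorAlgebra ℂ V) :=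
  CliffordAlgebra.contractLeft (Q := (0 : QuadraticForm ℂ V)) d

theorem con_mul (d : Module.Dual ℂ V) (v : V) (x : ExteriorAlgebra ℂ V) :
    con d (ExteriorAlgebra.ι ℂ v * x) = d v • x - ExteriorAlgebra.ι ℂ v * con d x :=
  CliffordAlgebra.contractLeft_ι_mul (Q := (0 : QuadraticForm ℂ V)) d v x

theorem con_one (d : Module.Dual ℂ V) : con d (1 : ExteriorAlgebra ℂ V) = 0 :=
  CliffordAlgebra.contractLeft_one (Q := (0 : QuadraticForm ℂ V)) (d := d)

/-- the number operator -/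
noncomputable def num {n : ℕ} (b : Module.Basis (Fin n) ℂ V) :
    Module.End ℂ (ExteriorAlgebra ℂ V) :=
  ∑ k, LinearMap.mulLeft ℂ (ExteriorAlgebra.ι ℂ (b k)) * con (b.coord k)

theorem num_apply {n : ℕ} (b : Module.Basis (Fin n) ℂ V) (x : ExteriorAlgebra ℂ V) :
    num b x = ∑ k, ExteriorAlgebra.ι ℂ (b k) * con (b.coord k) x := by
  rw [num, LinearMap.sum_apply]
  rfl

theorem ι_anti (v u : V) : ExteriorAlgebra.ι ℂ v * ExteriorAlgebra.ι ℂ u
    = -(ExteriorAlgebra.ι ℂ u * ExteriorAlgebra.ι ℂ v) :=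
  eq_neg_of_add_eq_zero_left (ExteriorAlgebra.ι_add_mul_swap v u)

theorem num_mul {n : ℕ} (b : Module.Basis (Fin n) ℂ V) (v : V) (x : ExteriorAlgebra ℂ V) :
    num b (ExteriorAlgebra.ι ℂ v * x) = ExteriorAlgebra.ι ℂ v * x
      + ExteriorAlgebra.ι ℂ v * num b x := by
  rw [num_apply, num_apply, Finset.mul_sum]
  have h1 : ∀ k, ExteriorAlgebra.ι ℂ (b k) * con (b.coord k) (ExteriorAlgebra.ι ℂ v * x)
      = ExteriorAlgebra.ι ℂ (b.coord k v • b k) * x
        + ExteriorAlgebra.ι ℂ v * (ExteriorAlgebra.ι ℂ (b k) * con (b.coord k) x) := by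
    intro k
    rw [con_mul, mul_sub, mul_smul_comm, map_smul, smul_mul_assoc, ← mul_assoc, ← mul_assoc,
      ι_anti (b k) v, neg_mul, sub_neg_eq_add]
  rw [Finset.sum_congr rfl fun k _ => h1 k, Finset.sum_add_distrib, ← Finset.sum_mul, ← map_sum]
  congr 3
  simp only [Module.Basis.coord_apply]
  exact b.sum_repr v

theorem num_deg {n : ℕ} (b : Module.Basis (Fin n) ℂ V) :
    ∀ (i : ℕ) (x : ExteriorAlgebra ℂ V), x ∈ ⋀[ℂ]^i V → num b x = (i : ℂ) • x
  | 0, x, hx => by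
    have hx' : x ∈ (1 : Submodule ℂ (ExteriorAlgebra ℂ V)) := by
      have : (⋀[ℂ]^0 V : Submodule ℂ (ExteriorAlgebra ℂ V)) = 1 := pow_zero _
      rwa [this] at hx
    obtain ⟨c, rfl⟩ := Submodule.mem_one.1 hx'
    rw [Algebra.algebraMap_eq_smul_one, map_smul, num_apply]
    simp [con_one]
  | i + 1, x, hx => by
    have hx' : x ∈ LinearMap.range (ExteriorAlgebra.ι ℂ (M := V)) *
        (⋀[ℂ]^i V : Submodule ℂ (ExteriorAlgebra ℂ V)) := by
      have : (⋀[ℂ]^(i + 1) V : Submodule ℂ (ExteriorAlgebra ℂ V))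
          = LinearMap.range (ExteriorAlgebra.ι ℂ (M := V)) * ⋀[ℂ]^i V := pow_succ' _ _
      rwa [this] at hx
    refine Submodule.mul_induction_on hx' ?_ ?_
    · rintro _ ⟨v, rfl⟩ y hy
      rw [num_mul, num_deg b i y hy, mul_smul_comm]
      push_cast
      rw [add_smul, one_smul, add_comm]
    · intro y z hy hz
      rw [map_add, hy, hz, smul_add]

/-- an element of degree `i < n` that is killed by all vectors is zero -/
theorem eq_zero_of_mul {n : ℕ} (b : Module.Basis (Fin n) ℂ V) {i : ℕ} (hi : i < n)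
    {x : ExteriorAlgebra ℂ V} (hx : x ∈ ⋀[ℂ]^i V)
    (h : ∀ v, ExteriorAlgebra.ι ℂ v * x = 0) : x = 0 := by
  have h1 : ∀ k, b.coord k (b k) • x - ExteriorAlgebra.ι ℂ (b k) * con (b.coord k) x = 0 := by
    intro k
    rw [← con_mul, h, map_zero]
  have h2 : ∑ k, (b.coord k (b k) • x - ExteriorAlgebra.ι ℂ (b k) * con (b.coord k) x) = 0 :=
    Finset.sum_eq_zero fun k _ => h1 k
  rw [Finset.sum_sub_distrib, ← num_apply, num_deg b i x hx] at h2
  have h3 : ∑ k : Fin n, b.coord k (b k) • x = (n : ℂ) • x := by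
    have : ∀ k : Fin n, b.coord k (b k) = 1 := fun k => by
      rw [Module.Basis.coord_apply, Module.Basis.repr_self, Finsupp.single_eq_same]
    simp only [this, one_smul, Finset.sum_const, Finset.card_univ, Fintype.card_fin]
    rw [Nat.cast_smul_eq_nsmul]
  rw [h3, ← sub_smul] at h2
  rcases smul_eq_zero.1 h2 with h4 | h4
  · rw [sub_eq_zero] at h4
    exact absurd (Nat.cast_injective h4) hi.ne'
  · exact h4

end ext

section proj

variable {M : Type*} [AddCommGroup M] [Module ℂ M] {gr : ℕ → Submodule ℂ M}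

/-- the projection to the degree `j` -/
noncomputable def pj (h : DirectSum.IsInternal gr) (j : ℕ) : Module.End ℂ M :=
  gop h fun i => if i = j then 1 else 0

theorem pj_same (h : DirectSum.IsInternal gr) {j : ℕ} {x : M} (hx : x ∈ gr j) : pj h j x = x := by
  rw [pj, gop_apply h _ hx, if_pos rfl, one_smul]

theorem pj_ne (h : DirectSum.IsInternal gr) {i j : ℕ} (hij : i ≠ j) {x : M} (hx : x ∈ gr i) :
    pj h j x = 0 := by
  rw [pj, gop_apply h _ hx, if_neg hij, zero_smul]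

theorem hom_ind (h : DirectSum.IsInternal gr) {P : M → Prop} (x : M)
    (hgen : ∀ i, ∀ x ∈ gr i, P x) (h0 : P 0) (hadd : ∀ a b, P a → P b → P (a + b)) : P x := by
  have hx : x ∈ ⨆ i, gr i := by
    rw [h.submodule_iSup_eq_top]
    trivial
  exact Submodule.iSup_induction gr (motive := P) hx hgen h0 hadd

theorem pj_mem (h : DirectSum.IsInternal gr) (j : ℕ) (x : M) : pj h j x ∈ gr j := by
  refine hom_ind h (P := fun x => pj h j x ∈ gr j) x ?_ ?_ ?_
  · intro i x hx
    by_cases hij : i = j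
    · subst hij
      rw [pj_same h hx]
      exact hx
    · rw [pj_ne h hij hx]
      exact zero_mem _
  · rw [map_zero]
    exact zero_mem _
  · intro a b ha hb
    rw [map_add]
    exact add_mem ha hb

end proj

namespace ExtAlg

variable {gr : ℕ → Submodule ℂ A} {n : ℕ} (h : ExtAlg gr n)

include h

theorem sq {v : A} (hv : v ∈ gr 1) : v * v = 0 := by
  have h1 := h.comm hv hv
  norm_num at h1
  have h2 : (2 : ℂ) • (v * v) = 0 := by
    rw [two_smul]
    nth_rewrite 1 [h1]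
    exact neg_add_cancel _
  exact (smul_eq_zero.1 h2).resolve_left two_ne_zero

/-- the homomorphism from the exterior algebra -/
noncomputable def hom : ExteriorAlgebra ℂ (gr 1) →ₐ[ℂ] A :=
  ExteriorAlgebra.lift ℂ ⟨(gr 1).subtype, fun v => h.sq v.2⟩

theorem hom_ι (v : gr 1) : h.hom (ExteriorAlgebra.ι ℂ v) = v := by
  rw [hom, ExteriorAlgebra.lift_ι_apply]
  rfl

theorem hom_gr : ∀ (i : ℕ) (x : ExteriorAlgebra ℂ (gr 1)), x ∈ ⋀[ℂ]^i (gr 1) → h.hom x ∈ gr i
  | 0, x, hx => by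
    have hx' : x ∈ (1 : Submodule ℂ (ExteriorAlgebra ℂ (gr 1))) := by
      have : (⋀[ℂ]^0 (gr 1) : Submodule ℂ (ExteriorAlgebra ℂ (gr 1))) = 1 := pow_zero _
      rwa [this] at hx
    obtain ⟨c, rfl⟩ := Submodule.mem_one.1 hx'
    rw [AlgHom.commutes, Algebra.algebraMap_eq_smul_one]
    exact Submodule.smul_mem _ _ h.one
  | i + 1, x, hx => by
    have hx' : x ∈ LinearMap.range (ExteriorAlgebra.ι ℂ (M := gr 1)) *
        (⋀[ℂ]^i (gr 1) : Submodule ℂ (ExteriorAlgebra ℂ (gr 1))) := by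
      have : (⋀[ℂ]^(i + 1) (gr 1) : Submodule ℂ (ExteriorAlgebra ℂ (gr 1)))
          = LinearMap.range (ExteriorAlgebra.ι ℂ (M := gr 1)) * ⋀[ℂ]^i (gr 1) := pow_succ' _ _
      rwa [this] at hx
    refine Submodule.mul_induction_on hx' ?_ ?_
    · rintro _ ⟨v, rfl⟩ y hy
      rw [map_mul, h.hom_ι, add_comm]
      exact h.mul v.2 (hom_gr i y hy)
    · intro y z hy hz
      rw [map_add]
      exact add_mem hy hz

theorem hom_surj : Function.Surjective h.hom := by
  rw [← AlgHom.range_eq_top, ← top_le_iff, ← h.gen]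
  refine Algebra.adjoin_le ?_
  intro v hv
  exact ⟨ExteriorAlgebra.ι ℂ ⟨v, hv⟩, h.hom_ι ⟨v, hv⟩⟩

theorem eInt : DirectSum.IsInternal (fun i => ⋀[ℂ]^i (gr 1)) :=
  DirectSum.Decomposition.isInternal (fun i => ⋀[ℂ]^i (gr 1))

theorem hom_pj (j : ℕ) (x : ExteriorAlgebra ℂ (gr 1)) :
    pj h.internal j (h.hom x) = h.hom (pj h.eInt j x) := by
  refine hom_ind h.eInt (P := fun x => pj h.internal j (h.hom x) = h.hom (pj h.eInt j x)) x
    ?_ ?_ ?_
  · intro i x hx
    by_cases hij : i = j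
    · subst hij
      rw [pj_same h.internal (h.hom_gr i x hx), pj_same h.eInt hx]
    · rw [pj_ne h.internal hij (h.hom_gr i x hx), pj_ne h.eInt hij hx, map_zero]
  · simp
  · intro a b ha hb
    rw [map_add, map_add, ha, hb, map_add, map_add]

theorem hom_inj_deg : ∀ (r i : ℕ), i + r = n → ∀ x ∈ ⋀[ℂ]^i (gr 1), h.hom x = 0 → x = 0
  | 0, i, hi, x, hx, h0 => by
    have := h.fin
    rw [add_zero] at hi
    subst hi
    by_contra hne
    have h1 : Module.finrank ℂ (⋀[ℂ]^i (gr 1)) = 1 := by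
      rw [exteriorPower.finrank_eq, h.dim, Nat.choose_self]
    obtain ⟨a, ha, ha0⟩ := (Submodule.ne_bot_iff _).1 h.top
    obtain ⟨y, rfl⟩ := h.hom_surj a
    have h2 : h.hom (pj h.eInt i y) = h.hom y := by
      rw [← h.hom_pj, pj_same h.internal ha]
    obtain ⟨c, hc⟩ := (finrank_eq_one_iff_of_nonzero' (⟨x, hx⟩ : ⋀[ℂ]^i (gr 1))
      (fun e => hne (congrArg Subtype.val e))).1 h1 ⟨pj h.eInt i y, pj_mem h.eInt i y⟩
    have h3 : c • x = pj h.eInt i y := congrArg Subtype.val hc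
    apply ha0
    rw [← h2, ← h3, map_smul, h0, smul_zero]
  | r + 1, i, hi, x, hx, h0 => by
    have := h.fin
    have b : Module.Basis (Fin n) ℂ (gr 1) := Module.finBasisOfFinrankEq ℂ (gr 1) h.dim
    refine eq_zero_of_mul b (by omega) hx fun v => ?_
    refine hom_inj_deg r (i + 1) (by omega) _ ?_ ?_
    · have : (⋀[ℂ]^(i + 1) (gr 1) : Submodule ℂ (ExteriorAlgebra ℂ (gr 1)))
          = LinearMap.range (ExteriorAlgebra.ι ℂ (M := gr 1)) * ⋀[ℂ]^i (gr 1) := pow_succ' _ _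
      rw [this]
      exact Submodule.mul_mem_mul ⟨v, rfl⟩ hx
    · rw [map_mul, h0, mul_zero]

theorem hom_inj : Function.Injective h.hom := by
  have hf := h.fin
  rw [injective_iff_map_eq_zero]
  intro x hx
  have h1 : ∀ j, pj h.eInt j x = 0 := by
    intro j
    rcases le_or_gt j n with hj | hj
    · refine h.hom_inj_deg (n - j) j (by omega) _ (pj_mem h.eInt j x) ?_
      rw [← h.hom_pj, hx, map_zero]
    · have h2 : Module.finrank ℂ (⋀[ℂ]^j (gr 1)) = 0 := by
        rw [exteriorPower.finrank_eq, h.dim, Nat.choose_eq_zero_of_lt hj]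
      have h3 : Subsingleton (⋀[ℂ]^j (gr 1)) := Module.finrank_zero_iff.1 h2
      exact congrArg Subtype.val
        (Subsingleton.elim (⟨pj h.eInt j x, pj_mem h.eInt j x⟩ : ⋀[ℂ]^j (gr 1)) 0)
  have h2 : x = ∑ j ∈ Finset.range (n + 1), pj h.eInt j x := by
    refine hom_ind h.eInt (P := fun x => x = ∑ j ∈ Finset.range (n + 1), pj h.eInt j x) x ?_ ?_ ?_
    · intro i x hx
      rcases le_or_gt i n with hi | hi
      · rw [Finset.sum_eq_single i]
        · rw [pj_same h.eInt hx]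
        · intro j _ hj
          exact pj_ne h.eInt (Ne.symm hj) hx
        · intro hi'
          exact absurd (Finset.mem_range.2 (by omega)) hi'
      · have h2 : Module.finrank ℂ (⋀[ℂ]^i (gr 1)) = 0 := by
          rw [exteriorPower.finrank_eq, h.dim, Nat.choose_eq_zero_of_lt hi]
        have h3 : Subsingleton (⋀[ℂ]^i (gr 1)) := Module.finrank_zero_iff.1 h2
        have h4 : x = 0 := congrArg Subtype.val
          (Subsingleton.elim (⟨x, hx⟩ : ⋀[ℂ]^i (gr 1)) 0)
        rw [h4]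
        simp
    · simp
    · intro a b ha hb
      simp only [map_add, Finset.sum_add_distrib]
      rw [← ha, ← hb]
  rw [h2]
  exact Finset.sum_eq_zero fun j _ => h1 j

/-- the isomorphism with the exterior algebra -/
noncomputable def equiv : ExteriorAlgebra ℂ (gr 1) ≃ₐ[ℂ] A :=
  AlgEquiv.ofBijective h.hom ⟨h.hom_inj, h.hom_surj⟩

theorem equiv_ι (v : gr 1) : h.equiv (ExteriorAlgebra.ι ℂ v) = v := h.hom_ι v

theorem equiv_symm (v : gr 1) : h.equiv.symm (v : A) = ExteriorAlgebra.ι ℂ v := by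
  rw [AlgEquiv.symm_apply_eq, h.equiv_ι]

/-- elements of degree `i` come from degree `i` -/
theorem exists_deg {i : ℕ} {x : A} (hx : x ∈ gr i) :
    ∃ y ∈ ⋀[ℂ]^i (gr 1), h.hom y = x := by
  obtain ⟨y, rfl⟩ := h.hom_surj x
  exact ⟨pj h.eInt i y, pj_mem h.eInt i y, by rw [← h.hom_pj, pj_same h.internal hx]⟩

/-- induction on the degree -/
theorem deg_ind {P : ℕ → A → Prop} (h0 : ∀ i, P i 0)
    (hadd : ∀ i x y, x ∈ gr i → y ∈ gr i → P i x → P i y → P i (x + y))
    (h1 : ∀ c : ℂ, P 0 (c • 1))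
    (hmul : ∀ i, ∀ v ∈ gr 1, ∀ x ∈ gr i, P i x → P (i + 1) (v * x)) :
    ∀ (i : ℕ) (x : A), x ∈ gr i → P i x
  | 0, x, hx => by
    obtain ⟨y, hy, rfl⟩ := h.exists_deg hx
    have hy' : y ∈ (1 : Submodule ℂ (ExteriorAlgebra ℂ (gr 1))) := by
      have : (⋀[ℂ]^0 (gr 1) : Submodule ℂ (ExteriorAlgebra ℂ (gr 1))) = 1 := pow_zero _
      rwa [this] at hy
    obtain ⟨c, rfl⟩ := Submodule.mem_one.1 hy'
    rw [AlgHom.commutes, Algebra.algebraMap_eq_smul_one]
    exact h1 c
  | i + 1, x, hx => by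
    obtain ⟨y, hy, rfl⟩ := h.exists_deg hx
    have hy' : y ∈ LinearMap.range (ExteriorAlgebra.ι ℂ (M := gr 1)) *
        (⋀[ℂ]^i (gr 1) : Submodule ℂ (ExteriorAlgebra ℂ (gr 1))) := by
      have : (⋀[ℂ]^(i + 1) (gr 1) : Submodule ℂ (ExteriorAlgebra ℂ (gr 1)))
          = LinearMap.range (ExteriorAlgebra.ι ℂ (M := gr 1)) * ⋀[ℂ]^i (gr 1) := pow_succ' _ _
      rwa [this] at hy
    have key : h.hom y ∈ gr (i + 1) ∧ P (i + 1) (h.hom y) := by
      refine Submodule.mul_induction_on hy' ?_ ?_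
      · rintro _ ⟨v, rfl⟩ y hy
        rw [map_mul, h.hom_ι]
        have hy2 := h.hom_gr i y hy
        refine ⟨?_, hmul i v v.2 _ hy2 (deg_ind h0 hadd h1 hmul i _ hy2)⟩
        rw [add_comm]
        exact h.mul v.2 hy2
      · rintro y z ⟨hy1, hy2⟩ ⟨hz1, hz2⟩
        rw [map_add]
        exact ⟨add_mem hy1 hz1, hadd _ _ _ hy1 hz1 hy2 hz2⟩
    exact key.2

/-- the contraction with a functional on `gr 1` -/
noncomputable def D (d : Module.Dual ℂ (gr 1)) : Module.End ℂ A :=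
  h.equiv.toLinearMap ∘ₗ con d ∘ₗ h.equiv.symm.toLinearMap

theorem D_apply (d : Module.Dual ℂ (gr 1)) (x : A) :
    h.D d x = h.equiv (con d (h.equiv.symm x)) := rfl

theorem D_one (d : Module.Dual ℂ (gr 1)) : h.D d 1 = 0 := by
  rw [h.D_apply, map_one, con_one, map_zero]

theorem D_mul (d : Module.Dual ℂ (gr 1)) (v : gr 1) (x : A) :
    h.D d (v * x) = d v • x - v * h.D d x := by
  rw [h.D_apply, map_mul, h.equiv_symm, con_mul, map_sub, map_smul, map_mul, h.equiv_ι,
    AlgEquiv.apply_symm_apply, ← h.D_apply]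

theorem D_add (d d' : Module.Dual ℂ (gr 1)) (x : A) : h.D (d + d') x = h.D d x + h.D d' x := by
  simp only [h.D_apply, con, map_add, LinearMap.add_apply]

theorem D_smul (c : ℂ) (d : Module.Dual ℂ (gr 1)) (x : A) : h.D (c • d) x = c • h.D d x := by
  simp only [h.D_apply, con, map_smul, LinearMap.smul_apply]

theorem D_v (d : Module.Dual ℂ (gr 1)) (v : gr 1) : h.D d (v : A) = d v • 1 := by
  have := h.D_mul d v 1
  rwa [mul_one, h.D_one, mul_zero, sub_zero] at this

end ExtAlg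

end Pool.Agent.Lib.MP_361a6f_ag.AV48
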