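import Pool.Agent.Lib.MP_361a6f_ag.AV48.Car
import Pool.Agent.Lib.MP_361a6f_ag.PP.Rsp
import Pool.Agent.Lib.MP_361a6f_ag.FL.A.Defs

/-!
# Row HR: Hodge-Riemann relations for the exterior algebra
-/

open CategoryTheory AlgebraicGeometry MonoidalCategory CartesianMonoidalCategory

universe u v w

set_option autoImplicit false
set_option linter.unusedSectionVars false

namespace Pool.Agent.Lib.MP_361a6f_ag.AV48

open Pool.Agent.Lib.MP_361a6f_ag.H3 Pool.Agent.Lib.MP_361a6f_ag.SQ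
  Pool.Agent.Lib.MP_361a6f_ag.PP Pool.Agent.Lib.MP_361a6f_ag.FL

variable {k : Type u} [Field k] {W : CohomologyData.{u, 0, w} k ℂ} {𝒱 : VarietyClass k}

theorem sgn_succ (i : ℕ) : sgn (i + 1) = (-1 : ℂ) ^ (i + 1) * sgn i := by
  obtain ⟨a, rfl | rfl⟩ := Nat.even_or_odd' i
  · rw [StaB.sgn_odd, StaB.sgn_even, Odd.neg_one_pow ⟨a, rfl⟩, pow_succ]
    ring
  · rw [show 2 * a + 1 + 1 = 2 * (a + 1) by ring, StaB.sgn_even, StaB.sgn_odd,
      (even_two_mul (a + 1)).neg_one_pow, one_mul]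

/-- the cohomology of an abelian variety is an exterior algebra -/
theorem extAlg_of_tr (hW : IsWeilCohomology W 𝒱) {X : Sch k} {g : ℕ} (hX : 𝒱.mem X g)
    (hA : AbelianType W X g) (h0 : ∃ x, W.tr X x ≠ 0) : ExtAlg (W.gr X) (2 * g) where
  internal := hW.internal hX
  one := hW.one_gr hX
  mul := hW.mul_gr hX
  comm := hW.comm_gr hX
  gen := by
    rw [Algebra.eq_top_iff]
    exact hA.gen
  fin := by
    have := hW.finite hX
    infer_instance
  dim := hA.rank
  top := by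
    intro hbot
    obtain ⟨x, hx⟩ := h0
    apply hx
    refine hW.hom_induction hX (P := fun x => W.tr X x = 0) x ?_ ?_ ?_
    · intro i x hx
      by_cases hi : i = 2 * g
      · subst hi
        rw [hbot] at hx
        rw [(Submodule.mem_bot ℂ).1 hx, map_zero]
      · exact hW.tr_gr hX hx hi
    · rw [map_zero]
    · intro a b ha hb
      rw [map_add, ha, hb, add_zero]

section main

variable (hW : IsWeilCohomology W 𝒱) {X : Sch k} {g : ℕ} (hX : 𝒱.mem X g)
  (hA : AbelianType W X g) {ξ : W.coh X} (hξ : PositiveDivisor W X g ξ)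
  {Lam : Module.End ℂ (W.coh X)} (D : LamData W X g ξ Lam)

include hW hX hA hξ

theorem ξg_ne : ξ ^ g ≠ 0 := by
  intro h0
  obtain ⟨q, hq, h⟩ := hξ.2
  have h1 : W.tr X (ξ ^ g) = (q : ℂ) := h
  rw [h0, map_zero] at h1
  have : q = 0 := by exact_mod_cast h1.symm
  exact hq.ne' this

theorem extAlg : ExtAlg (W.gr X) (2 * g) := by
  refine extAlg_of_tr hW hX hA ⟨ξ ^ g, ?_⟩
  obtain ⟨q, hq, h⟩ := hξ.2
  have h1 : W.tr X (ξ ^ g) = (q : ℂ) := h
  rw [h1]
  exact_mod_cast hq.ne'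

theorem ξ_gr : ξ ∈ W.gr X 2 := hW.alg_gr hX (j := 1) hξ.1

include D

/-- the operator `ι_u` is a contraction -/
theorem io_D {u : W.coh X} (hu : u ∈ W.gr X 1) :
    ∃ d : Module.Dual ℂ (W.gr X 1), (extAlg hW hX hA hξ).D d ξ = -u ∧
      io Lam u = (extAlg hW hX hA hξ).D d := by
  have := hW.finite hX
  obtain ⟨d, hd⟩ := (extAlg hW hX hA hξ).exists_dual (ξ_gr hW hX hA hξ) D.slm
    (ξg_ne hW hX hA hξ) ⟨u, hu⟩
  exact ⟨d, hd, (extAlg hW hX hA hξ).io_eq_D (ξ_gr hW hX hA hξ) D.slm ⟨u, hu⟩ hd⟩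

theorem io_gr {u : W.coh X} (hu : u ∈ W.gr X 1) {i : ℕ} {x : W.coh X}
    (hx : x ∈ W.gr X (i + 1)) : io Lam u x ∈ W.gr X i := by
  obtain ⟨d, -, h⟩ := io_D hW hX hA hξ D hu
  rw [h]
  exact ((extAlg hW hX hA hξ).D_gr d (i + 1) x hx).2 i rfl

theorem io_one {u : W.coh X} (hu : u ∈ W.gr X 1) : io Lam u 1 = 0 := by
  obtain ⟨d, -, h⟩ := io_D hW hX hA hξ D hu
  rw [h, (extAlg hW hX hA hξ).D_one]

theorem io_mul {u v : W.coh X} (hu : u ∈ W.gr X 1) (hv : v ∈ W.gr X 1) (x : W.coh X) :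
    io Lam u (v * x) = io Lam u v * x - v * io Lam u x := by
  obtain ⟨d, -, h⟩ := io_D hW hX hA hξ D hu
  have h1 := (extAlg hW hX hA hξ).D_mul d ⟨v, hv⟩ x
  have h2 := (extAlg hW hX hA hξ).D_v d ⟨v, hv⟩
  rw [h]
  refine h1.trans ?_
  have h3 : (extAlg hW hX hA hξ).D d v = d ⟨v, hv⟩ • 1 := h2
  rw [h3, smul_mul_assoc, one_mul]

omit D in
theorem zero_gr {x : W.coh X} (hx : x ∈ W.gr X 0) : ∃ c : ℂ, x = c • 1 := by
  have h := (extAlg hW hX hA hξ).deg_ind (P := fun i x => i = 0 → ∃ c : ℂ, x = c • 1)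
    (fun i _ => ⟨0, by rw [zero_smul]⟩)
    (fun i x y _ _ hx hy h0 => by
      obtain ⟨a, ha⟩ := hx h0
      obtain ⟨b, hb⟩ := hy h0
      exact ⟨a + b, by rw [ha, hb, add_smul]⟩)
    (fun c _ => ⟨c, rfl⟩) (fun i v _ x _ _ h0 => absurd h0 (Nat.succ_ne_zero i)) 0 x hx
  exact h rfl

/-- `u · *y = ± *(ι_u y)` -/
theorem u_star {u : W.coh X} (hu : u ∈ W.gr X 1) {i : ℕ} {y : W.coh X}
    (hy : y ∈ W.gr X (i + 1)) :
    u * star D.slm.internal (Lop W X ξ) Lam y
      = (-1 : ℂ) ^ (i + 1) • star D.slm.internal (Lop W X ξ) Lam (io Lam u y) := by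
  have := hW.finite hX
  have hio := io_gr hW hX hA hξ D hu hy
  rw [StaB.star_apply D.slm hy, StaB.star_apply D.slm hio, mul_smul_comm, smul_smul, sgn_succ]
  congr 1
  have h := LinearMap.congr_fun ((extAlg hW hX hA hξ).w_io (ξ_gr hW hX hA hξ) D.slm hu) y
  exact h.symm

/-- `ψ(u x, y) = -ψ(x, ι_u y)` -/
theorem psi_mu {u : W.coh X} (hu : u ∈ W.gr X 1) {i : ℕ} {x y : W.coh X} (hx : x ∈ W.gr X i)
    (hy : y ∈ W.gr X (i + 1)) :
    psi W X ξ Lam D.slm.internal (u * x) y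
      = -psi W X ξ Lam D.slm.internal x (io Lam u y) := by
  rw [psi, psi, hW.comm_gr hX hu hx, smul_mul_assoc, mul_assoc, u_star hW hX hA hξ D hu hy,
    mul_smul_comm, smul_smul, map_smul, one_mul, ← pow_add, smul_eq_mul]
  have h1 : Odd (i + (i + 1)) := ⟨i, by ring⟩
  rw [h1.neg_one_pow, neg_one_mul]

theorem psi_one : ∃ r : ℝ, 0 < r ∧ psi W X ξ Lam D.slm.internal 1 1 = (r : ℂ) := by
  obtain ⟨q, hq, h⟩ := hξ.2
  have h1 : W.tr X (ξ ^ g) = (q : ℂ) := h
  have h2 := (staB D.slm).2.2.2.2.1 0 (1 : W.coh X) (Nat.zero_le _) (hW.one_gr hX)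
    (D.slm.Λ_low 0 1 (by norm_num) (hW.one_gr hX))
  have h3 : ((Lop W X ξ) ^ g) (1 : W.coh X) = ξ ^ g := by
    rw [Lop, LinearMap.pow_mulLeft, LinearMap.mulLeft_apply, mul_one]
  refine ⟨((g.factorial : ℝ))⁻¹ * (q : ℝ), mul_pos (inv_pos.2 (by exact_mod_cast g.factorial_pos))
    (by exact_mod_cast hq), ?_⟩
  rw [psi, one_mul, h2, pow_zero, one_mul]
  simp only [mul_zero, Nat.sub_zero]
  rw [h3, map_smul, h1, smul_eq_mul]
  push_cast
  ring

/-- the scalar `ι_u v` -/
theorem io_v {u v : W.coh X} (hu : u ∈ W.gr X 1) (hv : v ∈ W.gr X 1) :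
    io Lam u v = (-(psi W X ξ Lam D.slm.internal u v)
      / psi W X ξ Lam D.slm.internal 1 1) • 1 := by
  obtain ⟨r, hr, h1⟩ := psi_one hW hX hA hξ D
  obtain ⟨c, hc⟩ := zero_gr hW hX hA hξ (io_gr hW hX hA hξ D hu (i := 0) hv)
  have h2 := psi_mu hW hX hA hξ D hu (hW.one_gr hX) hv
  rw [mul_one, hc, psi_smul_right] at h2
  rw [hc, h2, neg_neg, h1, mul_div_cancel_right₀ c (by exact_mod_cast hr.ne')]

section J

variable (J : W.coh X →ₛₗ[starRingEnd ℂ] W.coh X) (J1 : J 1 = 1)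
  (Jm : ∀ x y, J (x * y) = J x * J y) (Jg : ∀ i x, x ∈ W.gr X i → J x ∈ W.gr X i)
  (Jc : ∀ v ∈ W.gr X 1, ∀ w ∈ W.gr X 1, psi W X ξ Lam D.slm.internal (J v) (J w)
    = starRingEnd ℂ (psi W X ξ Lam D.slm.internal v w))
  (Jp : ∀ v ∈ W.gr X 1, v ≠ 0 → ∃ r : ℝ, 0 < r ∧
    psi W X ξ Lam D.slm.internal v (J v) = (r : ℂ))
  (JJ : ∀ v ∈ W.gr X 1, J (J v) = -v)

include J1 Jm Jg JJ

theorem JJ_gr : ∀ (i : ℕ) (x : W.coh X), x ∈ W.gr X i → J (J x) = (-1 : ℂ) ^ i • x := by
  refine (extAlg hW hX hA hξ).deg_ind (P := fun i x => J (J x) = (-1 : ℂ) ^ i • x) ?_ ?_ ?_ ?_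
  · intro i
    rw [map_zero, map_zero, smul_zero]
  · intro i x y _ _ hx hy
    rw [map_add, map_add, hx, hy, smul_add]
  · intro c
    rw [LinearMap.map_smulₛₗ, LinearMap.map_smulₛₗ, J1, J1, Complex.conj_conj, pow_zero, one_smul]
  · intro i v hv x hx h
    rw [Jm, Jm, JJ v hv, h, pow_succ, mul_neg_one, neg_smul, neg_mul, mul_smul_comm]

include Jc in
/-- `J ξ = ξ` -/
theorem J_ξ : J ξ = ξ := by
  have hE := extAlg hW hX hA hξ
  have hξ2 := ξ_gr hW hX hA hξ
  obtain ⟨r, hr, h1⟩ := psi_one hW hX hA hξ D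
  have hr0 : psi W X ξ Lam D.slm.internal 1 1 ≠ 0 := by
    rw [h1]; exact_mod_cast hr.ne'
  have hone : (1 : W.coh X) ≠ 0 := by
    intro h0
    apply hr0
    rw [psi, h0, zero_mul, map_zero]
  -- the functional of a vector
  have key : ∀ (d : Module.Dual ℂ (W.gr X 1)) (u : W.coh X) (hu : u ∈ W.gr X 1),
      hE.D d ξ = -u ↔ ∀ v : W.gr X 1, d v
        = -(psi W X ξ Lam D.slm.internal u v) / psi W X ξ Lam D.slm.internal 1 1 := by
    intro d u hu
    have := hW.finite hX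
    have h3 : ∀ d, hE.D d ξ = -u → ∀ v : W.gr X 1, d v
        = -(psi W X ξ Lam D.slm.internal u v) / psi W X ξ Lam D.slm.internal 1 1 := by
      intro d hd v
      have h4 := hE.io_eq_D hξ2 D.slm ⟨u, hu⟩ hd
      have h5 := io_v hW hX hA hξ D hu v.2
      have h6 : io Lam u (v : W.coh X) = hE.D d v := LinearMap.congr_fun h4 _
      rw [h6, hE.D_v] at h5
      exact smul_left_injective ℂ hone h5
    refine ⟨h3 d, fun h => ?_⟩
    obtain ⟨d', hd'⟩ := hE.exists_dual hξ2 D.slm (ξg_ne hW hX hA hξ) ⟨u, hu⟩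
    have h7 : d = d' := LinearMap.ext fun v => by rw [h v, h3 d' hd' v]
    rw [h7]
    exact hd'
  -- the conjugate functional
  have hJD : ∀ d : Module.Dual ℂ (W.gr X 1), ∃ d' : Module.Dual ℂ (W.gr X 1),
      (∀ v : W.gr X 1, d' v = starRingEnd ℂ (d ⟨J v, Jg 1 v v.2⟩)) ∧
      ∀ i x, x ∈ W.gr X i → hE.D d (J x) = J (hE.D d' x) := by
    intro d
    let d' : Module.Dual ℂ (W.gr X 1) :=
      { toFun := fun v => starRingEnd ℂ (d ⟨J v, Jg 1 v v.2⟩)
        map_add' := fun v v' => by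
          have : (⟨J ((v + v' : W.gr X 1) : W.coh X), Jg 1 _ (v + v').2⟩ : W.gr X 1)
              = ⟨J v, Jg 1 v v.2⟩ + ⟨J v', Jg 1 v' v'.2⟩ := Subtype.ext (map_add J _ _)
          rw [this, map_add, map_add]
        map_smul' := fun c v => by
          have : (⟨J ((c • v : W.gr X 1) : W.coh X), Jg 1 _ (c • v).2⟩ : W.gr X 1)
              = starRingEnd ℂ c • ⟨J v, Jg 1 v v.2⟩ :=
            Subtype.ext (LinearMap.map_smulₛₗ J _ _)
          rw [this, map_smul, smul_eq_mul, map_mul, Complex.conj_conj, RingHom.id_apply,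
            smul_eq_mul] }
    have hd' : ∀ v : W.gr X 1, d' v = starRingEnd ℂ (d ⟨J v, Jg 1 v v.2⟩) := fun v => rfl
    refine ⟨d', hd', ?_⟩
    refine hE.deg_ind (P := fun i x => hE.D d (J x) = J (hE.D d' x)) ?_ ?_ ?_ ?_
    · intro i
      simp
    · intro i x y _ _ hx hy
      rw [map_add, map_add, hx, hy, map_add, map_add]
    · intro c
      rw [LinearMap.map_smulₛₗ, J1, map_smul, map_smul, hE.D_one, hE.D_one, smul_zero,
        smul_zero, map_zero]
    · intro i v hv x hx h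
      have e1 := hE.D_mul d ⟨J v, Jg 1 v hv⟩ (J x)
      have e2 := hE.D_mul d' ⟨v, hv⟩ x
      have e1' : hE.D d (J v * J x) = d ⟨J v, Jg 1 v hv⟩ • J x - J v * hE.D d (J x) := e1
      have e2' : hE.D d' (v * x) = d' ⟨v, hv⟩ • x - v * hE.D d' x := e2
      rw [Jm, e1', e2', map_sub, LinearMap.map_smulₛₗ, Jm, hd', Complex.conj_conj, h]
  -- all contractions of `J ξ - ξ` vanish
  have hz : ∀ d : Module.Dual ℂ (W.gr X 1), hE.D d (J ξ - ξ) = 0 := by
    intro d
    obtain ⟨u, hu, hd⟩ : ∃ u ∈ W.gr X 1, hE.D d ξ = -u :=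
      ⟨-(hE.D d ξ), neg_mem ((hE.D_gr d 2 ξ hξ2).2 1 rfl), by rw [neg_neg]⟩
    obtain ⟨d', hd', hJ⟩ := hJD d
    have hdv := (key d u hu).1 hd
    have hJu := Jg 1 u hu
    have h8 : hE.D d' ξ = -(-(J u)) := by
      refine (key d' (-(J u)) (neg_mem hJu)).2 fun v => ?_
      rw [hd', hdv, ← neg_one_smul ℂ (J u), psi_smul_left, map_div₀, map_neg, ← Jc u hu _
        (Jg 1 v v.2), h1, Complex.conj_ofReal, JJ v v.2, ← neg_one_smul ℂ (v : W.coh X),
        psi_smul_right]
    rw [map_sub, hJ 2 ξ hξ2, h8, hd, neg_neg, JJ u hu, sub_neg_eq_add, neg_add_cancel]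
  -- so it is zero
  have hn : ∀ i x, x ∈ W.gr X i → (∀ d, hE.D d x = 0) → ((i : ℂ)) • x = 0 := by
    intro i x hx h0
    have := hE.fin
    let b : Module.Basis (Fin (2 * g)) ℂ (W.gr X 1) :=
      Module.finBasisOfFinrankEq ℂ (W.gr X 1) hE.dim
    have hN : ∀ i x, x ∈ W.gr X i → ∑ l, (b l : W.coh X) * hE.D (b.coord l) x = (i : ℂ) • x := by
      refine hE.deg_ind (P := fun i x => ∑ l, (b l : W.coh X) * hE.D (b.coord l) x
        = (i : ℂ) • x) ?_ ?_ ?_ ?_
      · intro i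
        simp
      · intro i x y _ _ hx hy
        simp only [map_add, mul_add, Finset.sum_add_distrib]
        rw [hx, hy, smul_add]
      · intro c
        simp [hE.D_one]
      · intro i v hv x hx h
        have e1 : ∀ l, (b l : W.coh X) * hE.D (b.coord l) (v * x)
            = ((b.coord l ⟨v, hv⟩ • b l : W.gr X 1) : W.coh X) * x
              + v * ((b l : W.coh X) * hE.D (b.coord l) x) := by
          intro l
          have e2 : hE.D (b.coord l) (v * x) = b.coord l ⟨v, hv⟩ • x - v * hE.D (b.coord l) x :=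
            hE.D_mul (b.coord l) ⟨v, hv⟩ x
          have e3 : (b l : W.coh X) * v = -(v * (b l : W.coh X)) := by
            rw [hW.comm_gr hX (b l).2 hv]
            norm_num
          rw [e2, mul_sub, mul_smul_comm, ← mul_assoc, e3, neg_mul, sub_neg_eq_add, mul_assoc,
            Submodule.coe_smul, smul_mul_assoc]
        rw [Finset.sum_congr rfl fun l _ => e1 l, Finset.sum_add_distrib, ← Finset.sum_mul,
          ← Finset.mul_sum, h]
        have e4 : ∑ l, ((b.coord l ⟨v, hv⟩ • b l : W.gr X 1) : W.coh X) = v := by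
          have := b.sum_repr ⟨v, hv⟩
          have h5 := congrArg (Subtype.val : W.gr X 1 → W.coh X) this
          rw [AddSubmonoidClass.coe_finsetSum] at h5
          exact h5
        rw [e4, mul_smul_comm]
        push_cast
        rw [add_smul, one_smul, add_comm]
    rw [← hN i x hx]
    exact Finset.sum_eq_zero fun l _ => by rw [h0, mul_zero]
  have h9 := hn 2 (J ξ - ξ) (sub_mem (Jg 2 ξ hξ2) hξ2) hz
  have h10 : J ξ - ξ = 0 := (smul_eq_zero.1 h9).resolve_left (by norm_num)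
  exact sub_eq_zero.1 h10

include Jc in
/-- `J` commutes with `Λ` -/
theorem J_Lam (x : W.coh X) : J (Lam x) = Lam (J x) := by
  have := hW.finite hX
  have hJξ := J_ξ hW hX hA hξ D J J1 Jm Jg Jc JJ
  have hJJ := JJ_gr hW hX hA hξ D J J1 Jm Jg JJ
  have S := D.slm
  let A : Module.End ℂ (W.coh X) := J.comp (Lam.comp J)
  let B : Module.End ℂ (W.coh X) := Lam.comp (J.comp J)
  have hA' : ∀ x, A x = J (Lam (J x)) := fun x => rfl
  have hB' : ∀ x, B x = Lam (J (J x)) := fun x => rfl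
  have hH : ∀ i x, x ∈ W.gr X i → PP.Slm.weyH S.internal g x = ((i : ℂ) - g) • x :=
    fun i x hx => gop_apply S.internal _ hx
  have hlow : ∀ i x, x ∈ W.gr X i → i < 2 → A x = 0 ∧ B x = 0 := by
    intro i x hx hi
    exact ⟨by rw [hA', S.Λ_low i _ hi (Jg i x hx), map_zero],
      by rw [hB', S.Λ_low i _ hi (Jg i _ (Jg i x hx))]⟩
  have hAB : ∀ i x, x ∈ W.gr X (i + 2) → A x ∈ W.gr X i ∧ B x ∈ W.gr X i := by
    intro i x hx
    exact ⟨Jg _ _ (S.Λ_gr i _ (Jg _ _ hx)), S.Λ_gr i _ (Jg _ _ (Jg _ _ hx))⟩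
  have h1 : A - B = 0 := by
    refine eq_zero_of_neg S.wey_sl2 (m := 1) ?_ ?_
    · refine PP.Slm.wey_hom_ext S.internal fun i x hx => ?_
      have e1 := S.comm i (J x) (Jg i x hx)
      have e2 := S.comm i (J (J x)) (Jg i _ (Jg i x hx))
      show ξ * (J (Lam (J x)) - Lam (J (J x))) - (J (Lam (J (ξ * x))) - Lam (J (J (ξ * x)))) = 0
      have e1' : ξ * Lam (J x) - Lam (ξ * J x) = ((i : ℂ) - g) • J x := e1
      have e2' : ξ * Lam (J (J x)) - Lam (ξ * J (J x)) = ((i : ℂ) - g) • J (J x) := e2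
      have e3 := congrArg J e1'
      rw [map_sub, Jm, hJξ, LinearMap.map_smulₛₗ] at e3
      have e4 : starRingEnd ℂ ((i : ℂ) - g) = (i : ℂ) - g := by simp
      rw [e4] at e3
      rw [Jm ξ x, hJξ, Jm ξ (J x), hJξ]
      calc ξ * (J (Lam (J x)) - Lam (J (J x))) - (J (Lam (ξ * J x)) - Lam (ξ * J (J x)))
          = (ξ * J (Lam (J x)) - J (Lam (ξ * J x)))
            - (ξ * Lam (J (J x)) - Lam (ξ * J (J x))) := by
            rw [mul_sub]; abel
        _ = 0 := by rw [e3, e2', sub_self]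
    · refine PP.Slm.wey_hom_ext S.internal fun i x hx => ?_
      rw [LinearMap.sub_apply, Module.End.mul_apply, Module.End.mul_apply, hH i x hx, map_smul,
        LinearMap.neg_apply, LinearMap.smul_apply, LinearMap.sub_apply]
      by_cases hi : i < 2
      · obtain ⟨a0, b0⟩ := hlow i x hx hi
        rw [a0, b0]
        simp
      · obtain ⟨j, rfl⟩ : ∃ j, i = j + 2 := ⟨i - 2, by omega⟩
        obtain ⟨a1, b1⟩ := hAB j x hx
        rw [hH j _ (sub_mem a1 b1), ← sub_smul, ← neg_smul]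
        congr 1
        push_cast
        ring
  have h2 : ∀ x, J (Lam (J x)) = Lam (J (J x)) := by
    intro x
    have := LinearMap.congr_fun h1 x
    exact sub_eq_zero.1 this
  -- `J` is surjective
  have hs : ∃ y, J y = x := by
    refine hW.hom_induction hX (P := fun x => ∃ y, J y = x) x ?_ ?_ ?_
    · intro i x hx
      refine ⟨J ((-1 : ℂ) ^ i • x), ?_⟩
      rw [hJJ i _ (Submodule.smul_mem _ _ hx), smul_smul, ← mul_pow]
      norm_num
    · exact ⟨0, map_zero J⟩
    · rintro a b ⟨y, hy⟩ ⟨z, hz⟩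
      exact ⟨y + z, by rw [map_add, hy, hz]⟩
  obtain ⟨y, rfl⟩ := hs
  exact h2 y

include Jc in
theorem J_tr (z : W.coh X) : W.tr X (J z) = starRingEnd ℂ (W.tr X z) := by
  have hJξ := J_ξ hW hX hA hξ D J J1 Jm Jg Jc JJ
  obtain ⟨q, hq, h⟩ := hξ.2
  have h1 : W.tr X (ξ ^ g) = (q : ℂ) := h
  have hq0 : ((q : ℚ) : ℂ) ≠ 0 := by exact_mod_cast hq.ne'
  have hξ2 := ξ_gr hW hX hA hξ
  have hpow : ∀ r, ξ ^ r ∈ W.gr X (2 * r) ∧ J (ξ ^ r) = ξ ^ r := by
    intro r
    induction r with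
    | zero => rw [pow_zero]; exact ⟨hW.one_gr hX, J1⟩
    | succ r ih =>
      rw [pow_succ]
      exact ⟨hW.mul_gr hX ih.1 hξ2, by rw [Jm, ih.2, hJξ]⟩
  refine hW.hom_induction hX (P := fun z => W.tr X (J z) = starRingEnd ℂ (W.tr X z)) z ?_ ?_ ?_
  · intro i z hz
    by_cases hi : i = 2 * g
    · subst hi
      have h2 : z - (W.tr X z / (q : ℂ)) • ξ ^ g = 0 := by
        refine hW.duality hX _ fun y => ?_
        have hz' : z - (W.tr X z / (q : ℂ)) • ξ ^ g ∈ W.gr X (2 * g) :=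
          sub_mem hz (Submodule.smul_mem _ _ (hpow g).1)
        refine hW.hom_induction hX (P := fun y =>
          W.tr X ((z - (W.tr X z / (q : ℂ)) • ξ ^ g) * y) = 0) y ?_ ?_ ?_
        · intro j y hy
          rcases Nat.eq_zero_or_pos j with hj | hj
          · subst hj
            obtain ⟨c, rfl⟩ := zero_gr hW hX hA hξ hy
            rw [mul_smul_comm, mul_one, map_smul, map_sub, map_smul, h1, smul_eq_mul,
              smul_eq_mul, div_mul_cancel₀ _ hq0, sub_self, mul_zero]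
          · rw [hW.top_gr hX (hW.mul_gr hX hz' hy) (by omega), map_zero]
        · rw [mul_zero, map_zero]
        · intro a b ha hb
          rw [mul_add, map_add, ha, hb, add_zero]
      rw [sub_eq_zero] at h2
      have h3 : J z = starRingEnd ℂ (W.tr X z / (q : ℂ)) • ξ ^ g := by
        conv_lhs => rw [h2]
        rw [LinearMap.map_smulₛₗ, (hpow g).2]
      rw [h3, map_smul, h1, smul_eq_mul, map_div₀]
      have h4 : starRingEnd ℂ ((q : ℚ) : ℂ) = ((q : ℚ) : ℂ) := by simp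
      rw [h4, div_mul_cancel₀ _ hq0]
    · rw [hW.tr_gr hX (Jg i z hz) hi, hW.tr_gr hX hz hi, map_zero]
  · rw [map_zero, map_zero, map_zero]
  · intro a b ha hb
    rw [map_add, map_add, ha, hb, map_add, map_add]

include Jc in
theorem io_J {u : W.coh X} (x : W.coh X) :
    J (io Lam u x) = io Lam (J u) (J x) := by
  have h := J_Lam hW hX hA hξ D J J1 Jm Jg Jc JJ
  rw [io_apply, io_apply, map_sub, h, Jm, Jm, h]

include Jc Jp in
/-- positivity in the degree `i` -/
theorem pos_gr : ∀ (i : ℕ) (x : W.coh X), x ∈ W.gr X i → x ≠ 0 →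
    ∃ r : ℝ, 0 < r ∧ psi W X ξ Lam D.slm.internal x (J x) = (r : ℂ) := by
  have hfin := hW.finite hX
  obtain ⟨r1, hr1, h1⟩ := psi_one hW hX hA hξ D
  have hr1' : (r1 : ℂ) ≠ 0 := by exact_mod_cast hr1.ne'
  -- the hermitian form on `H^1`
  have hP : PosHerm (fun v v' : W.gr X 1 => psi W X ξ Lam D.slm.internal (v : W.coh X) (J v')) := by
    refine PosHerm.of_pos (fun v v' y => psi_add_left _ _ _ _) (fun c v y => psi_smul_left _ _ _ _)
      (fun v y y' => ?_) (fun c v y => ?_) (fun v hv => Jp v v.2 fun h0 => hv (Subtype.ext h0))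
    · show psi W X ξ Lam D.slm.internal (v : W.coh X) (J ((y : W.coh X) + y')) = _
      rw [map_add, psi_add_right]
    · show psi W X ξ Lam D.slm.internal (v : W.coh X) (J (c • (y : W.coh X))) = _
      rw [LinearMap.map_smulₛₗ, psi_smul_right]
  obtain ⟨b, hb⟩ := hP.exists_orthonormal
  -- `ι_(J e_l) v`
  have hbv : ∀ l (v : W.gr X 1), io Lam (J (b l)) (v : W.coh X)
      = (psi W X ξ Lam D.slm.internal (v : W.coh X) (J (b l)) / r1) • 1 := by
    intro l v
    rw [io_v hW hX hA hξ D (Jg 1 _ (b l).2) v.2, h1]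
    congr 2
    have e1 := hP.conj (b l) v
    have e2 := Jc (b l) (b l).2 (J v) (Jg 1 v v.2)
    have e1' : starRingEnd ℂ (psi W X ξ Lam D.slm.internal (b l : W.coh X) (J v))
        = psi W X ξ Lam D.slm.internal (v : W.coh X) (J (b l)) := e1
    rw [← e1', ← e2, JJ v v.2, ← neg_one_smul ℂ (v : W.coh X), psi_smul_right]
    ring
  have hN1 : ∀ v : W.gr X 1, ∑ l, (b l : W.coh X) * io Lam (J (b l)) (v : W.coh X)
      = (r1 : ℂ)⁻¹ • (v : W.coh X) := by
    intro v
    have e0 : ∀ j, ∑ l, (b l : W.coh X) * io Lam (J (b l)) (b j : W.coh X)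
        = (r1 : ℂ)⁻¹ • (b j : W.coh X) := by
      intro j
      rw [Finset.sum_eq_single j]
      · have e2 : psi W X ξ Lam D.slm.internal (b j : W.coh X) (J (b j)) = 1 := by
          have := hb j j
          rwa [if_pos rfl] at this
        rw [hbv, e2, mul_smul_comm, mul_one, one_div]
      · intro l _ hl
        have e2 : psi W X ξ Lam D.slm.internal (b j : W.coh X) (J (b l)) = 0 := by
          have := hb j l
          rwa [if_neg (Ne.symm hl)] at this
        rw [hbv, e2, zero_div, zero_smul, mul_zero]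
      · intro h0
        exact absurd (Finset.mem_univ _) h0
    have e3 : (∑ l, (LinearMap.mulLeft ℂ (b l : W.coh X)) ∘ₗ (io Lam (J (b l))) ∘ₗ
        (W.gr X 1).subtype) = ((r1 : ℂ)⁻¹ • (W.gr X 1).subtype) := by
      refine b.ext fun j => ?_
      rw [LinearMap.sum_apply]
      exact e0 j
    have e4 := LinearMap.congr_fun e3 v
    rw [LinearMap.sum_apply] at e4
    exact e4
  have hN : ∀ i x, x ∈ W.gr X i → ∑ l, (b l : W.coh X) * io Lam (J (b l)) x
      = ((i : ℂ) * (r1 : ℂ)⁻¹) • x := by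
    refine (extAlg hW hX hA hξ).deg_ind (P := fun i x =>
      ∑ l, (b l : W.coh X) * io Lam (J (b l)) x = ((i : ℂ) * (r1 : ℂ)⁻¹) • x) ?_ ?_ ?_ ?_
    · intro i
      simp
    · intro i x y _ _ hx hy
      simp only [map_add, mul_add, Finset.sum_add_distrib]
      rw [hx, hy, smul_add]
    · intro c
      have e5 : ∀ l, (b l : W.coh X) * io Lam (J (b l)) (c • (1 : W.coh X)) = 0 := fun l => by
        rw [map_smul, io_one hW hX hA hξ D (Jg 1 _ (b l).2), smul_zero, mul_zero]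
      rw [Finset.sum_congr rfl fun l _ => e5 l]
      simp
    · intro i v hv x hx h
      have e5 : ∀ l, (b l : W.coh X) * io Lam (J (b l)) (v * x)
          = (b l : W.coh X) * io Lam (J (b l)) v * x
            + v * ((b l : W.coh X) * io Lam (J (b l)) x) := by
        intro l
        have e3 : (b l : W.coh X) * v = -(v * (b l : W.coh X)) := by
          rw [hW.comm_gr hX (b l).2 hv]
          norm_num
        rw [io_mul hW hX hA hξ D (Jg 1 _ (b l).2) hv, mul_sub, ← mul_assoc, ← mul_assoc, e3,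
          neg_mul, sub_neg_eq_add, mul_assoc v]
      rw [Finset.sum_congr rfl fun l _ => e5 l, Finset.sum_add_distrib, ← Finset.sum_mul,
        ← Finset.mul_sum, h, hN1 ⟨v, hv⟩, smul_mul_assoc, mul_smul_comm, ← add_smul]
      congr 1
      push_cast
      ring
  intro i
  induction i with
  | zero =>
    intro x hx hx0
    obtain ⟨c, rfl⟩ := zero_gr hW hX hA hξ hx
    have hc : c ≠ 0 := by
      rintro rfl
      exact hx0 (zero_smul _ _)
    refine ⟨Complex.normSq c * r1, mul_pos (Complex.normSq_pos.2 hc) hr1, ?_⟩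
    rw [LinearMap.map_smulₛₗ, J1, psi_smul_left, psi_smul_right, h1, ← mul_assoc,
      Complex.mul_conj]
    push_cast
    rfl
  | succ i ih =>
    intro x hx hx0
    have hy : ∀ l, io Lam (J (b l)) x ∈ W.gr X i := fun l =>
      io_gr hW hX hA hξ D (Jg 1 _ (b l).2) hx
    -- each summand
    have h2 : ∀ l, psi W X ξ Lam D.slm.internal ((b l : W.coh X) * io Lam (J (b l)) x) (J x)
        = psi W X ξ Lam D.slm.internal (io Lam (J (b l)) x) (J (io Lam (J (b l)) x)) := by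
      intro l
      rw [psi_mu hW hX hA hξ D (b l).2 (hy l) (Jg _ x hx), io_J hW hX hA hξ D J J1 Jm Jg Jc JJ,
        JJ _ (b l).2]
      have e6 : io Lam (-(b l : W.coh X)) (J x) = -io Lam (b l : W.coh X) (J x) := by
        rw [io_apply, io_apply, neg_mul, neg_mul, map_neg]
        abel
      rw [e6, ← neg_one_smul ℂ (io Lam (b l : W.coh X) (J x)), psi_smul_right, neg_one_mul]
    have h3 : ∀ l, ∃ r : ℝ, 0 ≤ r ∧ psi W X ξ Lam D.slm.internal (io Lam (J (b l)) x)
        (J (io Lam (J (b l)) x)) = r ∧ (r = 0 → io Lam (J (b l)) x = 0) := by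
      intro l
      by_cases h0 : io Lam (J (b l)) x = 0
      · refine ⟨0, le_rfl, ?_, fun _ => h0⟩
        rw [h0, psi, zero_mul, map_zero, Complex.ofReal_zero]
      · obtain ⟨r, hr, hr'⟩ := ih _ (hy l) h0
        exact ⟨r, hr.le, hr', fun h => absurd h hr.ne'⟩
    choose r hr0 hr hrz using h3
    have h4 : psi W X ξ Lam D.slm.internal
        (∑ l, (b l : W.coh X) * io Lam (J (b l)) x) (J x) = ((∑ l, r l : ℝ) : ℂ) := by
      have e7 : psi W X ξ Lam D.slm.internal
          (∑ l, (b l : W.coh X) * io Lam (J (b l)) x) (J x)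
          = ∑ l, psi W X ξ Lam D.slm.internal ((b l : W.coh X) * io Lam (J (b l)) x) (J x) := by
        rw [psi, Finset.sum_mul, map_sum]
        rfl
      rw [e7]
      push_cast
      exact Finset.sum_congr rfl fun l _ => by rw [h2, hr]
    rw [hN (i + 1) x hx, psi_smul_left] at h4
    have h5 : 0 < ∑ l, r l := by
      refine lt_of_le_of_ne (Finset.sum_nonneg fun l _ => hr0 l) fun h0 => hx0 ?_
      have h6 := (Finset.sum_eq_zero_iff_of_nonneg fun l _ => hr0 l).1 h0.symm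
      have h7 : ∑ l, (b l : W.coh X) * io Lam (J (b l)) x = 0 :=
        Finset.sum_eq_zero fun l hl => by rw [hrz l (h6 l hl), mul_zero]
      rw [hN (i + 1) x hx] at h7
      refine (smul_eq_zero.1 h7).resolve_left ?_
      exact mul_ne_zero (by exact_mod_cast Nat.succ_ne_zero i) (inv_ne_zero hr1')
    refine ⟨(r1 / ((i + 1 : ℕ) : ℝ)) * ∑ l, r l, mul_pos (div_pos hr1 (by positivity)) h5, ?_⟩
    have h8 : (((i + 1 : ℕ)) : ℂ) ≠ 0 := by exact_mod_cast Nat.succ_ne_zero i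
    push_cast at h4 h8 ⊢
    rw [← h4]
    field_simp

include Jc Jp in
/-- the Hodge-Riemann relations -/
theorem isRS : IsRS W X g ξ Lam J := by
  have hJξ := J_ξ hW hX hA hξ D J J1 Jm Jg Jc JJ
  have htr := J_tr hW hX hA hξ D J J1 Jm Jg Jc JJ
  refine ⟨D.slm, Jg, fun x => by rw [Jm, hJξ], J_Lam hW hX hA hξ D J J1 Jm Jg Jc JJ, J1,
    fun x y => by rw [← Jm, htr], ?_⟩
  intro x hx
  have S := D.slm
  have hx2 : x = ∑ i ∈ Finset.range (2 * g + 1), pj S.internal i x := by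
    refine hom_ind S.internal (P := fun x => x = ∑ i ∈ Finset.range (2 * g + 1),
      pj S.internal i x) x ?_ ?_ ?_
    · intro i x hx
      rcases le_or_gt i (2 * g) with hi | hi
      · rw [Finset.sum_eq_single i]
        · rw [pj_same S.internal hx]
        · intro j _ hj
          exact pj_ne S.internal (Ne.symm hj) hx
        · intro hi'
          exact absurd (Finset.mem_range.2 (by omega)) hi'
      · rw [S.top i x hx hi]
        simp
    · simp
    · intro a b ha hb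
      simp only [map_add, Finset.sum_add_distrib]
      rw [← ha, ← hb]
  have h1 : ∀ i ∈ Finset.range (2 * g + 1), ∀ j ∈ Finset.range (2 * g + 1), i ≠ j →
      psi W X ξ Lam D.slm.internal (pj S.internal i x) (J (pj S.internal j x)) = 0 := by
    intro i hi j hj hij
    have hj' := Finset.mem_range.1 hj
    have h2 := (staB D.slm).1 j (J (pj S.internal j x)) (by omega)
      (Jg _ _ (pj_mem S.internal j x))
    rw [psi, hW.tr_gr hX (hW.mul_gr hX (pj_mem S.internal i x) h2) (by omega)]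
  have h2 : ∀ i, ∃ r : ℝ, 0 ≤ r ∧ psi W X ξ Lam D.slm.internal (pj S.internal i x)
      (J (pj S.internal i x)) = r ∧ (r = 0 → pj S.internal i x = 0) := by
    intro i
    by_cases h0 : pj S.internal i x = 0
    · refine ⟨0, le_rfl, ?_, fun _ => h0⟩
      rw [h0, psi, zero_mul, map_zero, Complex.ofReal_zero]
    · obtain ⟨r, hr, hr'⟩ := pos_gr hW hX hA hξ D J J1 Jm Jg Jc Jp JJ i _
        (pj_mem S.internal i x) h0
      exact ⟨r, hr.le, hr', fun h => absurd h hr.ne'⟩
  choose r hr0 hr hrz using h2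
  have h3 : psi W X ξ Lam D.slm.internal x (J x)
      = ((∑ i ∈ Finset.range (2 * g + 1), r i : ℝ) : ℂ) := by
    have e1 : psi W X ξ Lam D.slm.internal x (J x) = ∑ i ∈ Finset.range (2 * g + 1),
        ∑ j ∈ Finset.range (2 * g + 1), psi W X ξ Lam D.slm.internal (pj S.internal i x)
          (J (pj S.internal j x)) := by
      conv_lhs => rw [hx2]
      rw [psi, Finset.sum_mul, map_sum]
      refine Finset.sum_congr rfl fun i _ => ?_
      rw [map_sum, map_sum, Finset.mul_sum, map_sum]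
      rfl
    rw [e1]
    push_cast
    refine Finset.sum_congr rfl fun i hi => ?_
    rw [Finset.sum_eq_single i, hr]
    · intro j hj hij
      exact h1 i hi j hj (Ne.symm hij)
    · intro h0
      exact absurd hi h0
  refine ⟨_, ?_, h3⟩
  refine lt_of_le_of_ne (Finset.sum_nonneg fun i _ => hr0 i) fun h0 => hx ?_
  have h6 := (Finset.sum_eq_zero_iff_of_nonneg fun i _ => hr0 i).1 h0.symm
  rw [hx2]
  exact Finset.sum_eq_zero fun i hi => hrz i (h6 i hi)

end J

end main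

/-- Row HR. -/
theorem hr : HrStatement.{u, w} := by
  intro k _ W 𝒱 hW X g hX hA _ ξ hξ Lam D J J1 Jm Jg Jc Jp JJ
  exact isRS hW hX hA hξ D J J1 Jm Jg Jc Jp JJ

end Pool.Agent.Lib.MP_361a6f_ag.AV48
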